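import Pool.Agent.Lib.MP_00b317_lc.Step

/-!
The main construction: a subgroup `G` of the reals and a meager `G`-invariant set `A` such that no
meager analytic `G`-invariant set contains `A`.
-/

namespace Pool.Agent.Lib.MP_00b317_lc

open Filter Topology Set

theorem construction (O : ℕ → Set ℝ) (hO : ∀ n, IsOpen (O n)) (hd : ∀ n, Dense (O n))
    (par : ℕ → ℝ → ℕ → ℕ) (hpar : ∀ n z l, n ≠ 0 → par n z l < n) :
    ∃ (z : ℝ) (zs : ℕ → ℝ) (l : ℕ → ℕ) (p : ℕ → Y), StrictMono l ∧
      (∀ n, |z - zs n| ≤ r (l n)) ∧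
      (∀ n, n ≠ 0 → ∀ i < l n, p n i = p (par n (zs n) (l n)) i) ∧
      (∀ n, p n (l n) ≠ 0) ∧ (∀ n, ∀ i ≥ l (n + 1), p n i = 0) ∧
      (∀ n, ∀ y, res (l (n + 1)) y = res (l (n + 1)) (p n) → z - P y ∈ O n) ∧
      (∀ n m, l n < m → m ≤ l (n + 1) → ∀ w : Y →₀ ℤ, nrm w ≤ m → z - lin P w ∈ V m →
        ∃ y ∈ w.support, res m y = res m (p n)) := by
  classical
  have hstep := fun (n : ℕ) (z : ℝ) (l : ℕ) (s : Y) => step (O n) (hO n) (hd n) z l s
  choose fz fl fp h1 h2 h3 h4 h5 h6 h7 using hstep
  -- the states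
  let st : ℕ → ℝ × ℕ × (ℕ → Y) := fun n => Nat.rec (0, 0, fun _ => 0)
    (fun n s => (fz n s.1 s.2.1 (s.2.2 (par n s.1 s.2.1)), fl n s.1 s.2.1 (s.2.2 (par n s.1 s.2.1)),
      Function.update s.2.2 n (fp n s.1 s.2.1 (s.2.2 (par n s.1 s.2.1))))) n
  have hst : ∀ n, st (n + 1) = (fz n (st n).1 (st n).2.1 ((st n).2.2 (par n (st n).1 (st n).2.1)),
      fl n (st n).1 (st n).2.1 ((st n).2.2 (par n (st n).1 (st n).2.1)),
      Function.update (st n).2.2 n
        (fp n (st n).1 (st n).2.1 ((st n).2.2 (par n (st n).1 (st n).2.1)))) := fun n => rfl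
  set zs : ℕ → ℝ := fun n => (st n).1 with hzs
  set l : ℕ → ℕ := fun n => (st n).2.1 with hl
  set hist : ℕ → ℕ → Y := fun n => (st n).2.2 with hhist
  set p : ℕ → Y := fun n => hist (n + 1) n with hp
  have hz1 : ∀ n, zs (n + 1) = fz n (zs n) (l n) (hist n (par n (zs n) (l n))) := fun n => by
    simp only [hzs, hl, hhist]; rw [hst]
  have hl1 : ∀ n, l (n + 1) = fl n (zs n) (l n) (hist n (par n (zs n) (l n))) := fun n => by
    simp only [hzs, hl, hhist]; rw [hst]
  have hh1 : ∀ n, hist (n + 1) = Function.update (hist n) n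
      (fp n (zs n) (l n) (hist n (par n (zs n) (l n)))) := fun n => by
    simp only [hzs, hl, hhist]; rw [hst]
  have hp1 : ∀ n, p n = fp n (zs n) (l n) (hist n (par n (zs n) (l n))) := fun n => by
    simp only [hp]; rw [hh1]; simp
  have hh2 : ∀ n k, n < k → hist k n = p n := by
    intro n k hk
    induction k, hk using Nat.le_induction with
    | base => rfl
    | succ k hk ih =>
      rw [hh1, Function.update_of_ne (by omega)]
      exact ih
  have hlmono : StrictMono l := strictMono_nat_of_lt_succ (fun n => by rw [hl1]; exact h1 _ _ _ _)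
  have hzd : ∀ n, |zs (n + 1) - zs n| ≤ r (l n) / 2 := fun n => by rw [hz1]; exact h5 _ _ _ _
  -- telescoping
  have htel : ∀ n k, |zs (n + k) - zs n| ≤ r (l n) - r (l (n + k)) := by
    intro n k
    induction k with
    | zero => simp
    | succ k ih =>
      have h8 := hzd (n + k)
      have h9 := r_lt_le (hlmono (Nat.lt_succ_self (n + k)))
      have h10 := r_pos (l (n + k))
      have h11 : n + (k + 1) = n + k + 1 := rfl
      rw [h11]
      have h12 : |zs (n + k + 1) - zs n| ≤ |zs (n + k + 1) - zs (n + k)| + |zs (n + k) - zs n| :=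
        abs_sub_le _ _ _
      have h13 : r (l (n + k + 1)) = r (l (n + k).succ) := rfl
      rw [h13]
      linarith
  have hcauchy : CauchySeq zs := by
    rw [Metric.cauchySeq_iff']
    intro ε hε
    obtain ⟨n, hn⟩ := exists_pow_lt_of_lt_one hε (show (1 / 2 : ℝ) < 1 by norm_num)
    refine ⟨n, fun k hk => ?_⟩
    obtain ⟨j, rfl⟩ := Nat.exists_eq_add_of_le hk
    rw [Real.dist_eq]
    have h8 := htel n j
    have h9 := r_pos (l (n + j))
    have h10 := r_le_pow (l n)
    have h11 : (1 / 2 : ℝ) ^ (l n) ≤ (1 / 2) ^ n :=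
      pow_le_pow_of_le_one (by norm_num) (by norm_num) (hlmono.le_apply)
    linarith
  obtain ⟨z, hz⟩ := cauchySeq_tendsto_of_complete hcauchy
  have hzn : ∀ n, |z - zs n| ≤ r (l n) := by
    intro n
    have h8 : Tendsto (fun k => |zs k - zs n|) atTop (𝓝 |z - zs n|) :=
      (hz.sub_const _).abs
    refine le_of_tendsto h8 ?_
    filter_upwards [eventually_ge_atTop n] with k hk
    obtain ⟨j, rfl⟩ := Nat.exists_eq_add_of_le hk
    have h9 := htel n j
    have h10 := r_pos (l (n + j))
    linarith
  refine ⟨z, zs, l, p, hlmono, hzn, ?_, ?_, ?_, ?_, ?_⟩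
  · intro n hn i hi
    rw [hp1 n, h2 _ _ _ _ i hi, hh2 _ _ (hpar n _ _ hn)]
  · intro n
    rw [hp1 n]
    exact h3 _ _ _ _
  · intro n i hi
    rw [hp1 n]
    apply h4
    rw [hl1] at hi
    exact hi
  · intro n y hy
    rw [hp1 n, hl1 n] at hy
    apply h6 n (zs n) (l n) (hist n (par n (zs n) (l n))) z _ y hy
    rw [← hz1, ← hl1]
    exact hzn (n + 1)
  · intro n m hm hm' w hw hV
    rw [hp1 n]
    rw [hl1] at hm'
    apply h7 n (zs n) (l n) (hist n (par n (zs n) (l n))) m hm hm' z _ w hw hV
    rw [← hz1, ← hl1]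
    exact hzn (n + 1)

/-- The subgroup generated by the numbers `P y`. -/
noncomputable def valHom : (Y →₀ ℤ) →+ ℝ where
  toFun := lin P
  map_zero' := by simp [lin]
  map_add' := lin_add P

/-- The subgroup generated by the numbers `P y`. -/
noncomputable def G : AddSubgroup ℝ := valHom.range

theorem P_mem_G (y : Y) : P y ∈ G := by
  refine ⟨Finsupp.single y 1, ?_⟩
  show lin P _ = _
  rw [lin_single]
  simp

/-- The reals all of whose translates by elements of `G` avoid almost all of the sets `V m`. -/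
def A : Set ℝ := {x | ∀ g ∈ G, ¬ ∃ᶠ m in atTop, x + g ∈ V m}

theorem A_inv {g : ℝ} (hg : g ∈ G) {x : ℝ} (hx : x ∈ A) : x + g ∈ A := by
  intro g' hg'
  have := hx (g + g') (G.add_mem hg hg')
  rwa [← add_assoc] at this

theorem isOpen_V (m : ℕ) : IsOpen (V m) := by
  have : V m = ⋃ k : ℤ, {x | |x - k * q m| < r m} := by
    ext x; simp [V]
  rw [this]
  apply isOpen_iUnion
  intro k
  exact isOpen_lt (by fun_prop) continuous_const

theorem dense_iUnion_V (k : ℕ) : Dense (⋃ m ≥ k, V m) := by
  rw [Metric.dense_iff]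
  intro x ε hε
  obtain ⟨n, hn⟩ := exists_pow_lt_of_lt_one hε (show (1 / 2 : ℝ) < 1 by norm_num)
  set m := max n k
  have hq : q m < ε := by
    have h1 := q_le_pow m
    have h2 : (1 / 2 : ℝ) ^ m ≤ (1 / 2) ^ n :=
      pow_le_pow_of_le_one (by norm_num) (by norm_num) (le_max_left _ _)
    linarith
  refine ⟨⌊x / q m⌋ * q m, ?_, ?_⟩
  · rw [Metric.mem_ball, Real.dist_eq]
    have h1 := Int.floor_le (x / q m)
    have h2 := Int.lt_floor_add_one (x / q m)
    have h3 := q_pos m
    rw [le_div_iff₀ h3] at h1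
    rw [div_lt_iff₀ h3] at h2
    rw [abs_lt]
    constructor <;> nlinarith
  · simp only [mem_iUnion]
    refine ⟨m, le_max_right _ _, ⌊x / q m⌋, ?_⟩
    simp [r_pos m]

theorem isMeagre_A : IsMeagre A := by
  have h1 : (⋂ k : ℕ, ⋃ m ≥ k, V m) ∈ residual ℝ := by
    rw [countable_iInter_mem]
    intro k
    apply residual_of_dense_open
    · exact isOpen_biUnion (fun m _ => isOpen_V m)
    · exact dense_iUnion_V k
  refine mem_of_superset h1 ?_
  intro x hx hA
  apply hA 0 G.zero_mem
  rw [frequently_atTop]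
  intro k
  have := mem_iInter.1 hx k
  simp only [mem_iUnion] at this
  obtain ⟨m, hm, hV⟩ := this
  exact ⟨m, hm, by simpa using hV⟩

/-- Codes of the finite initial segments of a sequence. -/
def code (y : ℕ → ℕ) : ℕ → ℕ
  | 0 => 0
  | (i + 1) => Nat.pair (y i) (code y i) + 1

theorem code_inj {y y' : ℕ → ℕ} {i i' : ℕ} (h : code y i = code y' i') :
    i = i' ∧ ∀ j < i, y j = y' j := by
  induction i generalizing i' with
  | zero =>
    cases i' with
    | zero => exact ⟨rfl, fun j hj => absurd hj (Nat.not_lt_zero j)⟩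
    | succ i' => simp [code] at h
  | succ i ih =>
    cases i' with
    | zero => simp [code] at h
    | succ i' =>
      simp only [code, add_left_inj, Nat.pair_eq_pair] at h
      obtain ⟨h1, h2⟩ := ih h.2
      subst h1
      refine ⟨rfl, fun j hj => ?_⟩
      rcases Nat.lt_succ_iff_lt_or_eq.1 hj with h3 | h3
      · exact h2 j h3
      · subst h3; exact h.1

theorem code_lt (y : ℕ → ℕ) (i : ℕ) : code y i < code y (i + 1) := by
  have := Nat.right_le_pair (y i) (code y i)
  simp only [code]
  omega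

theorem code_strictMono (y : ℕ → ℕ) : StrictMono (code y) :=
  strictMono_nat_of_lt_succ (code_lt y)

theorem exists_between {l : ℕ → ℕ} (hl : StrictMono l) {m : ℕ} (hm : l 0 < m) :
    ∃ n, l n < m ∧ m ≤ l (n + 1) := by
  classical
  have hex : ∃ n, m ≤ l (n + 1) := ⟨m, (hl.le_apply (x := m)).trans (hl.monotone (Nat.le_succ m))⟩
  refine ⟨Nat.find hex, ?_, Nat.find_spec hex⟩
  rcases Nat.eq_zero_or_pos (Nat.find hex) with h | h
  · rw [h]; exact hm
  · have h1 := Nat.find_min hex (m := Nat.find hex - 1) (by omega)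
    have h2 : Nat.find hex - 1 + 1 = Nat.find hex := by omega
    rw [h2] at h1
    omega

theorem core (B : Set ℝ) (hB : MeasureTheory.AnalyticSet B) (hm : IsMeagre B)
    (hinv : ∀ g ∈ G, ∀ x ∈ B, x + g ∈ B) : ¬ A ⊆ B := by
  classical
  intro hAB
  -- decreasing dense open sets
  obtain ⟨O, hO, hd, hanti, hsub⟩ : ∃ O : ℕ → Set ℝ, (∀ n, IsOpen (O n)) ∧ (∀ n, Dense (O n)) ∧
      Antitone O ∧ (⋂ n, O n) ⊆ Bᶜ := by
    obtain ⟨t, ht1, ht2, ht3⟩ := mem_residual.1 hm
    obtain ⟨U, hU1, rfl⟩ := ht2.eq_iInter_nat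
    have hUd : ∀ n, Dense (U n) := fun n => ht3.mono (iInter_subset _ _)
    refine ⟨fun n => ⋂ i ≤ n, U i, ?_, ?_, ?_, ?_⟩
    · intro n
      exact (Set.finite_le_nat n).isOpen_biInter (fun i _ => hU1 i)
    · intro n
      exact ht3.mono (fun x hx => by
        simp only [mem_iInter] at hx ⊢
        exact fun i _ => hx i)
    · intro n k hnk x hx
      simp only [mem_iInter] at hx ⊢
      exact fun i hi => hx i (hi.trans hnk)
    · refine subset_trans ?_ ht1
      intro x hx
      simp only [mem_iInter] at hx ⊢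
      exact fun i => hx i i le_rfl
  -- the condition
  obtain ⟨f, hf1, hf2⟩ : ∃ f : Option (ℕ → ℕ) → ℝ, (B = ∅ ∨ (Continuous (fun y => f (some y)) ∧
      range (fun y => f (some y)) = B)) ∧ True := by
    rw [MeasureTheory.AnalyticSet] at hB
    rcases hB with h | ⟨f, hf, hf'⟩
    · exact ⟨fun _ => 0, Or.inl h, trivial⟩
    · exact ⟨fun o => o.elim 0 f, Or.inr ⟨hf, hf'⟩, trivial⟩
  let cond : ℕ → ℝ → ℕ → Prop := fun n z l =>
    B ≠ ∅ ∧ ∃ y, (∃ i, code y i = n) ∧ |f (some y) - z| ≤ r l
  obtain ⟨z, zs, l, p, hl, hz, hp1, hp2, hp3, hp4, hp5⟩ := construction O hO hd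
    (fun n z l => if cond n z l then (Nat.unpair (n - 1)).2 else 0) (by
      intro n z l hn
      split_ifs with h
      · have := Nat.unpair_right_le (n - 1)
        omega
      · omega)
  set pr : ℕ → ℕ := fun n => if cond n (zs n) (l n) then (Nat.unpair (n - 1)).2 else 0 with hpr
  replace hp1 : ∀ n, n ≠ 0 → ∀ i < l n, p n i = p (pr n) i := hp1
  have hprlt : ∀ n, n ≠ 0 → pr n < n := by
    intro n hn
    simp only [hpr]
    split_ifs with h
    · have := Nat.unpair_right_le (n - 1)
      omega
    · omega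
  have hr0 : Tendsto (fun n => r (l n)) atTop (𝓝 0) := by
    refine squeeze_zero (fun n => (r_pos _).le) (fun n => ?_)
      (tendsto_pow_atTop_nhds_zero_of_lt_one (show (0 : ℝ) ≤ 1 / 2 by norm_num) (by norm_num))
    exact (r_le_pow _).trans (pow_le_pow_of_le_one (by norm_num) (by norm_num) hl.le_apply)
  have hzs : Tendsto zs atTop (𝓝 z) := by
    rw [tendsto_iff_dist_tendsto_zero]
    refine squeeze_zero (fun n => dist_nonneg) (fun n => ?_) hr0
    rw [dist_comm, Real.dist_eq]
    exact hz n
  by_cases hzB : z ∈ B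
  · -- `z` is in `B`: there is a branch
    have hne : B ≠ ∅ := fun h => by rw [h] at hzB; exact hzB
    rcases hf1 with h | ⟨hfc, hfr⟩
    · exact hne h
    rw [← hfr] at hzB
    obtain ⟨y, hy⟩ := hzB
    beta_reduce at hy
    set nn : ℕ → ℕ := code y with hnn
    have hnnmono : StrictMono nn := code_strictMono y
    have hprn : ∀ i, pr (nn (i + 1)) = nn i := by
      intro i
      have hc : cond (nn (i + 1)) (zs (nn (i + 1))) (l (nn (i + 1))) := by
        refine ⟨hne, y, ⟨i + 1, rfl⟩, ?_⟩
        rw [hy]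
        exact hz _
      simp only [hpr]
      rw [if_pos hc]
      simp [hnn, code]
    have hchain : ∀ i k, i ≤ k → ∀ j < l (nn i + 1), p (nn k) j = p (nn i) j := by
      intro i k hik
      induction k, hik using Nat.le_induction with
      | base => intro j _; rfl
      | succ k hik ih =>
        intro j hj
        have h1 : nn i + 1 ≤ nn (k + 1) := by
          have := hnnmono (show i < k + 1 by omega)
          omega
        rw [hp1 (nn (k + 1)) (by omega) j (lt_of_lt_of_le hj (hl.monotone h1)), hprn k]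
        exact ih j hj
    let b : Y := fun j => p (nn (j + 1)) j
    have hb : ∀ i, res (l (nn i + 1)) b = res (l (nn i + 1)) (p (nn i)) := by
      intro i
      rw [res_eq_iff]
      intro j hj
      show p (nn (j + 1)) j = p (nn i) j
      rcases le_total i (j + 1) with h | h
      · exact hchain i (j + 1) h j hj
      · symm
        apply hchain (j + 1) i h j
        have h1 : j + 1 ≤ nn (j + 1) := hnnmono.le_apply
        have h2 : nn (j + 1) + 1 ≤ l (nn (j + 1) + 1) := hl.le_apply
        omega
    have hzO : ∀ i, z - P b ∈ O (nn i) := fun i => hp4 (nn i) b (hb i)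
    have h1 : z - P b ∈ Bᶜ := by
      apply hsub
      rw [mem_iInter]
      intro n
      exact hanti (hnnmono.le_apply (x := n)) (hzO n)
    apply h1
    have h2 := hinv (-(P b)) (G.neg_mem (P_mem_G b)) z (by rw [← hfr]; exact ⟨y, hy⟩)
    rwa [← sub_eq_add_neg] at h2
  · -- `z` is not in `B`
    apply hzB
    apply hAB
    intro g hg hfreq
    apply hzB
    obtain ⟨w0, hw0⟩ := hg
    set w : Y →₀ ℤ := -w0 with hw
    have hfreq' : ∃ᶠ m in atTop, z - lin P w ∈ V m := by
      have : z - lin P w = z + g := by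
        rw [hw, lin_neg]
        have : lin P w0 = g := hw0
        rw [this]
        ring
      rwa [this]
    -- a branch meeting infinitely many `p n`
    obtain ⟨y, hyw, hyinf⟩ : ∃ y ∈ w.support,
        {n | res (l n + 1) y = res (l n + 1) (p n)}.Infinite := by
      by_contra hcon
      push Not at hcon
      have hfin : (⋃ y ∈ w.support, {n | res (l n + 1) y = res (l n + 1) (p n)}).Finite :=
        w.support.finite_toSet.biUnion (fun y hy => hcon y hy)
      obtain ⟨n0, hn0⟩ := hfin.bddAbove
      have hK : ∃ K : ℕ, nrm w ≤ K := ⟨(nrm w).toNat, Int.self_le_toNat _⟩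
      obtain ⟨K, hK⟩ := hK
      obtain ⟨m, hm1, hm2⟩ := frequently_atTop.1 hfreq' (max K (l (n0 + 1) + 1))
      have hm3 : K ≤ m := (le_max_left _ _).trans hm1
      have hm4 : l (n0 + 1) + 1 ≤ m := (le_max_right _ _).trans hm1
      obtain ⟨n, hn1, hn2⟩ := exists_between hl (m := m) (by
        have := hl.monotone (Nat.zero_le (n0 + 1))
        omega)
      obtain ⟨y, hy1, hy2⟩ := hp5 n m hn1 hn2 w (hK.trans (by exact_mod_cast hm3)) hm2
      have hn3 : n ≤ n0 := by
        apply hn0
        simp only [mem_iUnion]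
        exact ⟨y, hy1, res_mono hn1 hy2⟩
      have hn4 : l (n + 1) ≤ l (n0 + 1) := hl.monotone (by omega)
      omega
    set S : Set ℕ := {n | res (l n + 1) y = res (l n + 1) (p n)} with hS
    have hclaim : ∀ n ∈ S, ∀ n' ∈ S, n < n' → pr n' = n ∨ (n < pr n' ∧ pr n' ∈ S) := by
      intro n hn n' hn' hlt
      simp only [hS, mem_ofPred_eq, res_eq_iff] at hn hn'
      have hn'0 : n' ≠ 0 := by omega
      have h1 : y (l n) ≠ 0 := by
        rw [hn (l n) (Nat.lt_succ_self _)]
        exact hp2 n
      have hlln : l n < l n' := hl hlt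
      have h2 : y (l n) = p (pr n') (l n) := by
        rw [hn' (l n) (by omega), hp1 n' hn'0 (l n) hlln]
      have h3 : l n < l (pr n' + 1) := by
        by_contra h
        push Not at h
        apply h1
        rw [h2]
        exact hp3 _ _ h
      have h4 : n < pr n' + 1 := hl.lt_iff_lt.1 h3
      rcases (Nat.lt_succ_iff.1 h4).eq_or_lt with h5 | h5
      · exact Or.inl h5.symm
      · refine Or.inr ⟨h5, ?_⟩
        simp only [hS, mem_ofPred_eq, res_eq_iff]
        intro i hi
        have h6 : l (pr n') < l n' := hl (hprlt n' hn'0)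
        rw [hn' i (by omega), hp1 n' hn'0 i (by omega)]
    -- enumerate `S`
    set nn : ℕ → ℕ := Nat.nth (· ∈ S) with hnn
    have hnnmem : ∀ i, nn i ∈ S := fun i => Nat.nth_mem_of_infinite hyinf i
    have hnnmono : StrictMono nn := Nat.nth_strictMono hyinf
    have hprn : ∀ i, pr (nn (i + 1)) = nn i := by
      intro i
      rcases hclaim (nn i) (hnnmem i) (nn (i + 1)) (hnnmem _) (hnnmono (Nat.lt_succ_self i)) with
        h | ⟨h1, h2⟩
      · exact h
      · exfalso
        have h3 : nn (i + 1) ≠ 0 := by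
          have := hnnmono (Nat.lt_succ_self i)
          have h4 : nn i.succ = nn (i + 1) := rfl
          omega
        have h4 := hprlt _ h3
        have h5 : nn (Nat.count (· ∈ S) (pr (nn (i + 1)))) = pr (nn (i + 1)) := Nat.nth_count h2
        rw [← h5] at h1 h4
        rw [h5] at h4
        have h6 := hnnmono.lt_iff_lt.1 h1
        have h7 : nn (Nat.count (· ∈ S) (pr (nn (i + 1)))) < nn (i + 1) := by rw [h5]; exact h4
        have h8 := hnnmono.lt_iff_lt.1 h7
        omega
    -- the approximations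
    have hcond : ∀ i, cond (nn (i + 2)) (zs (nn (i + 2))) (l (nn (i + 2))) ∧
        (Nat.unpair (nn (i + 2) - 1)).2 = nn (i + 1) := by
      intro i
      have h1 := hprn (i + 1)
      have h2 : nn (i + 1) ≠ 0 := by
        have := hnnmono (Nat.lt_succ_self i)
        have h4 : nn i.succ = nn (i + 1) := rfl
        omega
      have h3 : pr (nn (i + 1 + 1)) = nn (i + 1) := h1
      simp only [hpr] at h3
      split_ifs at h3 with h4
      · exact ⟨h4, h3⟩
      · exact absurd h3.symm h2
    have hne : B ≠ ∅ := (hcond 0).1.1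
    rcases hf1 with h | ⟨hfc, hfr⟩
    · exact absurd h hne
    choose ys hys1 hys2 using fun i => (hcond i).1.2
    choose D hD using hys1
    have hDpos : ∀ i, ∃ d, D i = d + 1 := by
      intro i
      apply Nat.exists_eq_succ_of_ne_zero
      intro h
      have h1 := hD i
      rw [h] at h1
      simp only [code] at h1
      have := hnnmono (Nat.lt_succ_self (i + 1))
      have h4 : nn (i + 1).succ = nn (i + 2) := rfl
      omega
    choose d hd' using hDpos
    have hcd : ∀ i, code (ys i) (d i) = nn (i + 1) := by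
      intro i
      rw [← (hcond i).2, ← hD i, hd' i]
      simp [code]
    have hagree : ∀ i, D (i + 1) = D i + 1 ∧ ∀ j < D i, ys (i + 1) j = ys i j := by
      intro i
      have h1 : code (ys (i + 1)) (d (i + 1)) = code (ys i) (D i) := by
        rw [hcd, hD]
      obtain ⟨h2, h3⟩ := code_inj h1
      refine ⟨by rw [hd' (i + 1), h2], fun j hj => h3 j (by omega)⟩
    have hDge : ∀ i, i + 1 ≤ D i := by
      intro i
      induction i with
      | zero => rw [hd' 0]; omega
      | succ i ih => rw [(hagree i).1]; omega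
    have hconst : ∀ j k, j ≤ k → ys k j = ys j j := by
      intro j k hjk
      induction k, hjk using Nat.le_induction with
      | base => rfl
      | succ k hjk ih =>
        rw [(hagree k).2 j (by have := hDge k; omega)]
        exact ih
    have hlim : Tendsto ys atTop (𝓝 (fun j => ys j j)) := by
      rw [tendsto_pi_nhds]
      intro j
      refine tendsto_const_nhds.congr' ?_
      filter_upwards [eventually_ge_atTop j] with k hk
      exact (hconst j k hk).symm
    have hflim : Tendsto (fun i => f (some (ys i))) atTop (𝓝 (f (some (fun j => ys j j)))) :=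
      (hfc.tendsto _).comp hlim
    have hnnlim : Tendsto (fun i => nn (i + 2)) atTop atTop :=
      (hnnmono.tendsto_atTop).comp (tendsto_add_atTop_nat 2)
    have hflim2 : Tendsto (fun i => f (some (ys i))) atTop (𝓝 z) := by
      have h1 : Tendsto (fun i => f (some (ys i)) - zs (nn (i + 2))) atTop (𝓝 0) := by
        refine squeeze_zero_norm (fun i => ?_) (hr0.comp hnnlim)
        exact hys2 i
      have h2 := h1.add (hzs.comp hnnlim)
      simp only [Function.comp_apply, sub_add_cancel, zero_add] at h2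
      exact h2
    rw [← hfr]
    exact ⟨_, tendsto_nhds_unique hflim hflim2⟩

end Pool.Agent.Lib.MP_00b317_lc
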