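import Mathlib

/-!
A dense null nonmeager subgroup of the reals, obtained from a nonprincipal ultrafilter, and the
fact that the only Borel set that contains it and is invariant under it is the whole line.
-/

namespace Pool.Agent.Lib.MP_00b317_lc.Null

open Filter Topology Set MeasureTheory

/-- Mesh of the `m`-th lattice. -/
noncomputable def q (m : ℕ) : ℝ := (1 / 2) ^ (m ^ 2)

/-- Size of the neighbourhood of the `m`-th lattice. -/
noncomputable def r (m : ℕ) : ℝ := (1 / 2) ^ (m ^ 2 + m)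

theorem q_pos (m : ℕ) : 0 < q m := by unfold q; positivity
theorem r_pos (m : ℕ) : 0 < r m := by unfold r; positivity

theorem q_anti {m n : ℕ} (h : m ≤ n) : q n ≤ q m :=
  pow_le_pow_of_le_one (by norm_num) (by norm_num) (Nat.pow_le_pow_left h 2)

theorem q_le_pow (m : ℕ) : q m ≤ (1 / 2) ^ m :=
  pow_le_pow_of_le_one (by norm_num) (by norm_num) (Nat.le_self_pow two_ne_zero m)

theorem r_anti {m n : ℕ} (h : m ≤ n) : r n ≤ r m :=
  pow_le_pow_of_le_one (by norm_num) (by norm_num)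
    (add_le_add (Nat.pow_le_pow_left h 2) h)

theorem r_le_pow (m : ℕ) : r m ≤ (1 / 2) ^ m :=
  pow_le_pow_of_le_one (by norm_num) (by norm_num) (Nat.le_add_left _ _)

theorem r_lt_le {m n : ℕ} (h : m < n) : 4 * r n ≤ r m := by
  have h1 : r n ≤ r (m + 1) := r_anti h
  have h2 : r (m + 1) ≤ (1 / 2) ^ (m ^ 2 + m + 2) :=
    pow_le_pow_of_le_one (by norm_num) (by norm_num) (by nlinarith)
  have h3 : ((1 / 2 : ℝ)) ^ (m ^ 2 + m + 2) = r m * (1 / 4) := by
    unfold r
    rw [pow_add]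
    norm_num
  linarith

theorem lattice_mono {m n : ℕ} (h : m ≤ n) {x : ℝ} (hx : ∃ k : ℤ, x = k * q m) :
    ∃ k : ℤ, x = k * q n := by
  obtain ⟨k, rfl⟩ := hx
  obtain ⟨j, hj⟩ := Nat.exists_eq_add_of_le (Nat.pow_le_pow_left h 2)
  refine ⟨k * 2 ^ j, ?_⟩
  unfold q
  rw [hj, pow_add]
  push_cast
  have : (2 : ℝ) ^ j * (1 / 2) ^ j = 1 := by
    rw [← mul_pow]; norm_num
  calc (k : ℝ) * (1 / 2) ^ m ^ 2 = k * (1 / 2) ^ m ^ 2 * 1 := by ring
    _ = k * (1 / 2) ^ m ^ 2 * ((2 : ℝ) ^ j * (1 / 2) ^ j) := by rw [this]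
    _ = _ := by ring

/-- `x` is close to the `m`-th lattice. -/
def Near (K : ℕ) (x : ℝ) (m : ℕ) : Prop := ∃ k : ℤ, |x - k * q m| ≤ K * r m

theorem near_of_lattice {x : ℝ} {m : ℕ} (hx : ∃ k : ℤ, x = k * q m) (K : ℕ) : Near K x m := by
  obtain ⟨k, rfl⟩ := hx
  refine ⟨k, ?_⟩
  have := r_pos m
  simp only [sub_self, abs_zero]
  positivity

/-- The subgroup. -/
noncomputable def H : AddSubgroup ℝ where
  carrier := {x | ∃ K : ℕ, ∀ᶠ m in (hyperfilter ℕ : Filter ℕ), Near K x m}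
  zero_mem' := ⟨0, Eventually.of_forall (fun m => near_of_lattice ⟨0, by simp⟩ 0)⟩
  add_mem' := by
    rintro x y ⟨K, hK⟩ ⟨L, hL⟩
    refine ⟨K + L, ?_⟩
    filter_upwards [hK, hL] with m h1 h2
    obtain ⟨k, hk⟩ := h1
    obtain ⟨l, hl⟩ := h2
    refine ⟨k + l, ?_⟩
    push_cast
    have h3 : x + y - (k + l) * q m = (x - k * q m) + (y - l * q m) := by ring
    rw [h3]
    refine (abs_add_le _ _).trans ?_
    linarith
  neg_mem' := by
    rintro x ⟨K, hK⟩
    refine ⟨K, ?_⟩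
    filter_upwards [hK] with m h1
    obtain ⟨k, hk⟩ := h1
    refine ⟨-k, ?_⟩
    push_cast
    have h3 : -x - -(k : ℝ) * q m = -(x - k * q m) := by ring
    rw [h3, abs_neg]
    exact hk

theorem mem_H_of_lattice {x : ℝ} {m : ℕ} (hx : ∃ k : ℤ, x = k * q m) : x ∈ H := by
  refine ⟨0, ?_⟩
  have h1 : ∀ᶠ n in (atTop : Filter ℕ), Near 0 x n := by
    filter_upwards [eventually_ge_atTop m] with n hn
    exact near_of_lattice (lattice_mono hn hx) 0
  exact Nat.hyperfilter_le_atTop h1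

theorem dense_H : Dense (H : Set ℝ) := by
  rw [Metric.dense_iff]
  intro x ε hε
  obtain ⟨m, hm⟩ := exists_pow_lt_of_lt_one hε (show (1 / 2 : ℝ) < 1 by norm_num)
  have hq : q m < ε := (q_le_pow m).trans_lt hm
  refine ⟨⌊x / q m⌋ * q m, ?_, mem_H_of_lattice ⟨_, rfl⟩⟩
  rw [Metric.mem_ball, Real.dist_eq]
  have h1 := Int.floor_le (x / q m)
  have h2 := Int.lt_floor_add_one (x / q m)
  have h3 := q_pos m
  rw [le_div_iff₀ h3] at h1
  rw [div_lt_iff₀ h3] at h2
  rw [abs_lt]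
  constructor <;> nlinarith

/-! ### The subgroup is null -/

theorem volume_near_le (K j m : ℕ) :
    volume ({x | Near K x m} ∩ Icc (-(j : ℝ)) j) ≤
      ENNReal.ofReal (((4 * (j + K) + 2) * K : ℕ) * (1 / 2) ^ m) := by
  set M : ℕ := (j + K) * 2 ^ (m ^ 2) with hM
  have hqM : q m * 2 ^ (m ^ 2) = 1 := by
    unfold q
    rw [← mul_pow]; norm_num
  have hsub : ({x | Near K x m} ∩ Icc (-(j : ℝ)) j) ⊆
      ⋃ k ∈ Finset.Icc (-(M : ℤ)) M, Metric.closedBall ((k : ℝ) * q m) (K * r m) := by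
    rintro x ⟨⟨k, hk⟩, hx1, hx2⟩
    simp only [mem_iUnion]
    refine ⟨k, ?_, by rwa [Metric.mem_closedBall, Real.dist_eq]⟩
    have hr1 : r m ≤ 1 := (r_le_pow m).trans (pow_le_one₀ (by norm_num) (by norm_num))
    have hK : (0 : ℝ) ≤ K := Nat.cast_nonneg K
    have h1 : |(k : ℝ) * q m| ≤ j + K := by
      rw [abs_le] at *
      have h2 : (K : ℝ) * r m ≤ K := by nlinarith
      constructor <;> linarith [hk.1, hk.2]
    rw [abs_mul, abs_of_pos (q_pos m)] at h1
    have h2 : |(k : ℝ)| ≤ M := by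
      calc |(k : ℝ)| = |(k : ℝ)| * (q m * 2 ^ (m ^ 2)) := by rw [hqM, mul_one]
        _ = (|(k : ℝ)| * q m) * 2 ^ (m ^ 2) := by ring
        _ ≤ (j + K) * 2 ^ (m ^ 2) := mul_le_mul_of_nonneg_right h1 (by positivity)
        _ = M := by rw [hM]; push_cast; ring
    rw [abs_le] at h2
    rw [Finset.mem_Icc]
    constructor
    · have := h2.1
      exact_mod_cast this
    · have := h2.2
      exact_mod_cast this
  refine (measure_mono hsub).trans ?_
  refine (measure_biUnion_finset_le _ _).trans ?_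
  simp only [Real.volume_closedBall]
  rw [Finset.sum_const, nsmul_eq_mul, Int.card_Icc]
  have h1 : ((((M : ℤ) + 1 - -(M : ℤ)).toNat : ℕ) : ENNReal) = ENNReal.ofReal (2 * M + 1 : ℕ) := by
    rw [ENNReal.ofReal_natCast]
    congr 1
    omega
  rw [h1, ← ENNReal.ofReal_mul (by positivity)]
  apply ENNReal.ofReal_le_ofReal
  push_cast
  have h2 : r m = q m * (1 / 2) ^ m := by unfold r q; rw [pow_add]
  have h3 : (1 : ℝ) ≤ 2 ^ (m ^ 2) := one_le_pow₀ (by norm_num)
  have h4 : (M : ℝ) * q m = j + K := by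
    rw [hM]; push_cast
    rw [mul_assoc, mul_comm (2 ^ m ^ 2) (q m), hqM, mul_one]
  have h5 : q m ≤ 1 := by
    have := q_pos m
    nlinarith
  rw [h2]
  have hp : (0 : ℝ) < (1 / 2) ^ m := by positivity
  have hK : (0 : ℝ) ≤ K := Nat.cast_nonneg K
  have hj : (0 : ℝ) ≤ j := Nat.cast_nonneg j
  calc (2 * (M : ℝ) + 1) * (2 * (K * (q m * (1 / 2) ^ m)))
      = (4 * (M * q m) + 2 * q m) * (K * (1 / 2) ^ m) := by ring
    _ ≤ (4 * (j + K) + 2) * (K * (1 / 2) ^ m) := by
        rw [h4]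
        apply mul_le_mul_of_nonneg_right _ (by positivity)
        linarith
    _ = (4 * (j + K) + 2) * K * (1 / 2) ^ m := by ring

theorem volume_H : volume (H : Set ℝ) = 0 := by
  have hsub : (H : Set ℝ) ⊆ ⋃ (K : ℕ) (j : ℕ),
      {x | ∃ᶠ m in atTop, x ∈ {x | Near K x m} ∩ Icc (-(j : ℝ)) j} := by
    rintro x ⟨K, hK⟩
    simp only [mem_iUnion]
    obtain ⟨j, hj⟩ := exists_nat_ge |x|
    refine ⟨K, j, ?_⟩
    rw [abs_le] at hj
    have h1 : ∃ᶠ m in (hyperfilter ℕ : Filter ℕ), Near K x m := hK.frequently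
    have h2 : ∃ᶠ m in (atTop : Filter ℕ), Near K x m := h1.filter_mono Nat.hyperfilter_le_atTop
    exact h2.mono (fun m hm => ⟨hm, hj.1, hj.2⟩)
  refine measure_mono_null hsub ?_
  rw [measure_iUnion_null_iff]
  intro K
  rw [measure_iUnion_null_iff]
  intro j
  apply measure_setOfPred_frequently_eq_zero
  have h1 : ∑' m, volume ({x | Near K x m} ∩ Icc (-(j : ℝ)) j) ≤
      ∑' m, ENNReal.ofReal (((4 * (j + K) + 2) * K : ℕ) * (1 / 2) ^ m) :=
    ENNReal.tsum_le_tsum (fun m => volume_near_le K j m)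
  refine ne_top_of_le_ne_top ?_ h1
  apply Summable.tsum_ofReal_ne_top
  exact (summable_geometric_of_lt_one (by norm_num) (by norm_num)).mul_left _

/-! ### The subgroup is not meager -/

theorem step (O : Set ℝ) (hO : IsOpen O) (hd : Dense O) (x : ℝ) (m : ℕ) :
    ∃ (x' : ℝ) (m' : ℕ), m < m' ∧ (∃ k : ℤ, x' = k * q m') ∧ |x' - x| ≤ r m / 2 ∧
      ∀ x'', |x'' - x'| ≤ r m' → x'' ∈ O := by
  obtain ⟨y, hyO, hy⟩ : ∃ y ∈ O, |y - x| < r m / 4 := by
    have h1 : (Metric.ball x (r m / 4)).Nonempty :=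
      Metric.nonempty_ball.2 (by have := r_pos m; linarith)
    obtain ⟨y, hy1, hy2⟩ := hd.inter_open_nonempty _ Metric.isOpen_ball h1
    refine ⟨y, hy2, ?_⟩
    rw [Metric.mem_ball, Real.dist_eq] at hy1
    exact hy1
  obtain ⟨δ, hδ, hball⟩ := Metric.isOpen_iff.1 hO y hyO
  obtain ⟨n, hn⟩ := exists_pow_lt_of_lt_one
    (show 0 < min (δ / 4) (r m / 4) from lt_min (by linarith) (by have := r_pos m; linarith))
    (show (1 / 2 : ℝ) < 1 by norm_num)
  set m' := max n (m + 1) with hm'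
  have h1 : (1 / 2 : ℝ) ^ m' ≤ (1 / 2) ^ n :=
    pow_le_pow_of_le_one (by norm_num) (by norm_num) (le_max_left _ _)
  have hq := q_le_pow m'
  have hr := r_le_pow m'
  have h2 := hn.trans_le (min_le_left _ _)
  have h3 := hn.trans_le (min_le_right _ _)
  have h4 := Int.floor_le (y / q m')
  have h5 := Int.lt_floor_add_one (y / q m')
  have h6 := q_pos m'
  rw [le_div_iff₀ h6] at h4
  rw [div_lt_iff₀ h6] at h5
  refine ⟨⌊y / q m'⌋ * q m', m', by omega, ⟨_, rfl⟩, ?_, ?_⟩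
  · rw [abs_lt] at hy
    rw [abs_le]
    constructor <;> nlinarith [hy.1, hy.2]
  · intro x'' hx''
    apply hball
    rw [Metric.mem_ball, Real.dist_eq]
    rw [abs_le] at hx''
    rw [abs_lt]
    constructor <;> nlinarith [hx''.1, hx''.2]

theorem tendsto_aux {x : ℕ → ℝ} {m : ℕ → ℕ} (hm : StrictMono m)
    (h : ∀ n, |x (n + 1) - x n| ≤ r (m n) / 2) : ∃ z, ∀ n, |z - x n| ≤ r (m n) := by
  have htel : ∀ n k, |x (n + k) - x n| ≤ r (m n) - r (m (n + k)) := by
    intro n k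
    induction k with
    | zero => simp
    | succ k ih =>
      have h8 := h (n + k)
      have h9 := r_lt_le (hm (Nat.lt_succ_self (n + k)))
      have h10 := r_pos (m (n + k))
      have h11 : n + (k + 1) = n + k + 1 := rfl
      rw [h11]
      have h12 : |x (n + k + 1) - x n| ≤ |x (n + k + 1) - x (n + k)| + |x (n + k) - x n| :=
        abs_sub_le _ _ _
      have h13 : r (m (n + k + 1)) = r (m (n + k).succ) := rfl
      rw [h13]
      linarith
  have hcauchy : CauchySeq x := by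
    rw [Metric.cauchySeq_iff']
    intro ε hε
    obtain ⟨n, hn⟩ := exists_pow_lt_of_lt_one hε (show (1 / 2 : ℝ) < 1 by norm_num)
    refine ⟨n, fun k hk => ?_⟩
    obtain ⟨j, rfl⟩ := Nat.exists_eq_add_of_le hk
    rw [Real.dist_eq]
    have h8 := htel n j
    have h9 := r_pos (m (n + j))
    have h10 := r_le_pow (m n)
    have h11 : (1 / 2 : ℝ) ^ (m n) ≤ (1 / 2) ^ n :=
      pow_le_pow_of_le_one (by norm_num) (by norm_num) (hm.le_apply)
    linarith
  obtain ⟨z, hz⟩ := cauchySeq_tendsto_of_complete hcauchy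
  refine ⟨z, fun n => ?_⟩
  have h8 : Tendsto (fun k => |x k - x n|) atTop (𝓝 |z - x n|) := (hz.sub_const _).abs
  refine le_of_tendsto h8 ?_
  filter_upwards [eventually_ge_atTop n] with k hk
  obtain ⟨j, rfl⟩ := Nat.exists_eq_add_of_le hk
  have h9 := htel n j
  have h10 := r_pos (m (n + j))
  linarith

theorem exists_between' {l : ℕ → ℕ} (hl : StrictMono l) {m : ℕ} (hm : l 0 ≤ m) :
    ∃ n, l n ≤ m ∧ m < l (n + 1) := by
  classical
  have hex : ∃ n, m < l (n + 1) := ⟨m, (hl.le_apply (x := m)).trans_lt (hl (Nat.lt_succ_self m))⟩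
  refine ⟨Nat.find hex, ?_, Nat.find_spec hex⟩
  rcases Nat.eq_zero_or_pos (Nat.find hex) with h | h
  · rw [h]; exact hm
  · have h1 := Nat.find_min hex (m := Nat.find hex - 1) (by omega)
    have h2 : Nat.find hex - 1 + 1 = Nat.find hex := by omega
    rw [h2] at h1
    omega

theorem two_points (O : ℕ → Set ℝ) (hO : ∀ n, IsOpen (O n)) (hd : ∀ n, Dense (O n)) :
    ∃ α β : ℝ, (∀ n, α ∈ O n) ∧ (∀ n, β ∈ O n) ∧ ∀ m, Near 1 α m ∨ Near 1 β m := by
  have hstep := fun (n : ℕ) (x : ℝ) (m : ℕ) => step (O n) (hO n) (hd n) x m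
  choose fx fm h1 h2 h3 h4 using hstep
  let st : ℕ → ℝ × ℝ × ℕ := fun n => Nat.rec (0, 0, 0)
    (fun n s => (fx n s.1 s.2.2, fx n s.2.1 (fm n s.1 s.2.2), fm n s.2.1 (fm n s.1 s.2.2))) n
  have hst : ∀ n, st (n + 1) = (fx n (st n).1 (st n).2.2,
      fx n (st n).2.1 (fm n (st n).1 (st n).2.2), fm n (st n).2.1 (fm n (st n).1 (st n).2.2)) :=
    fun n => rfl
  set as : ℕ → ℝ := fun n => (st n).1 with has
  set bs : ℕ → ℝ := fun n => (st n).2.1 with hbs
  set ms : ℕ → ℕ := fun n => (st n).2.2 with hms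
  set ms' : ℕ → ℕ := fun n => fm n (as n) (ms n) with hms'
  have ha1 : ∀ n, as (n + 1) = fx n (as n) (ms n) := fun n => by simp only [has, hms]; rw [hst]
  have hb1 : ∀ n, bs (n + 1) = fx n (bs n) (ms' n) := fun n => by
    simp only [has, hbs, hms', hms]; rw [hst]
  have hm1 : ∀ n, ms (n + 1) = fm n (bs n) (ms' n) := fun n => by
    simp only [has, hbs, hms', hms]; rw [hst]
  have hmm' : ∀ n, ms n < ms' n := fun n => h1 _ _ _
  have hm'm : ∀ n, ms' n < ms (n + 1) := fun n => by rw [hm1]; exact h1 _ _ _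
  have hmono : StrictMono ms := strictMono_nat_of_lt_succ (fun n => (hmm' n).trans (hm'm n))
  have had : ∀ n, |as (n + 1) - as n| ≤ r (ms n) / 2 := fun n => by rw [ha1]; exact h3 _ _ _
  have hbd' : ∀ n, |bs (n + 1) - bs n| ≤ r (ms' n) / 2 := fun n => by rw [hb1]; exact h3 _ _ _
  have hbd : ∀ n, |bs (n + 1) - bs n| ≤ r (ms n) / 2 := fun n => by
    have := r_anti (hmm' n).le
    linarith [hbd' n]
  obtain ⟨α, hα⟩ := tendsto_aux hmono had
  obtain ⟨β, hβ⟩ := tendsto_aux hmono hbd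
  have hms0 : ms 0 = 0 := rfl
  have hlat : ∀ n, (∃ k : ℤ, as n = k * q (ms n)) ∧ (∃ k : ℤ, bs n = k * q (ms n)) := by
    intro n
    cases n with
    | zero => exact ⟨⟨0, by simp [has, st]⟩, ⟨0, by simp [hbs, st]⟩⟩
    | succ n =>
      constructor
      · rw [ha1]
        exact lattice_mono (hm'm n).le (h2 n (as n) (ms n))
      · rw [hb1, hm1]
        exact h2 n (bs n) (ms' n)
  refine ⟨α, β, ?_, ?_, ?_⟩
  · intro n
    apply h4 n (as n) (ms n)
    rw [← ha1]
    exact (hα (n + 1)).trans (r_anti (hm'm n).le)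
  · intro n
    apply h4 n (bs n) (ms' n)
    rw [← hb1, ← hm1]
    exact hβ (n + 1)
  · intro m
    obtain ⟨n, hn1, hn2⟩ := exists_between' hmono (m := m) (by rw [hms0]; exact Nat.zero_le m)
    rcases lt_or_ge m (ms' n) with h | h
    · -- `β` is good
      right
      obtain ⟨k, hk⟩ := lattice_mono hn1 (hlat n).2
      refine ⟨k, ?_⟩
      rw [← hk]
      have h5 := hβ (n + 1)
      have h6 := hbd' n
      have h7 := r_lt_le (hm'm n)
      have h8 := r_anti h.le
      have h9 := r_pos (ms' n)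
      push_cast
      rw [abs_le] at *
      constructor <;> linarith [h5.1, h5.2, h6.1, h6.2]
    · -- `α` is good
      left
      have h5 : ∃ k : ℤ, as (n + 1) = k * q (ms' n) := by
        rw [ha1]
        exact h2 n (as n) (ms n)
      obtain ⟨k, hk⟩ := lattice_mono h h5
      refine ⟨k, ?_⟩
      rw [← hk]
      have h6 := hα (n + 1)
      have h7 := r_anti hn2.le
      push_cast
      linarith

theorem not_isMeagre_H : ¬ IsMeagre (H : Set ℝ) := by
  intro hm
  obtain ⟨t, ht1, ht2, ht3⟩ := mem_residual.1 hm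
  obtain ⟨U, hU1, rfl⟩ := ht2.eq_iInter_nat
  obtain ⟨α, β, hα, hβ, hab⟩ := two_points U hU1 (fun n => ht3.mono (iInter_subset _ _))
  have h1 : ∀ᶠ m in (hyperfilter ℕ : Filter ℕ), Near 1 α m ∨ Near 1 β m :=
    Eventually.of_forall hab
  rw [Ultrafilter.eventually_or] at h1
  rcases h1 with h | h
  · exact ht1 (mem_iInter.2 hα) ⟨1, h⟩
  · exact ht1 (mem_iInter.2 hβ) ⟨1, h⟩

/-- The only Borel set containing `H` and invariant under `H` is the whole line. -/
theorem borel_invariant_eq_univ (B : Set ℝ) (hB : MeasurableSet B)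
    (hinv : ∀ g ∈ H, ∀ x ∈ B, x + g ∈ B) (hsub : (H : Set ℝ) ⊆ B) : B = univ := by
  by_contra hne
  obtain ⟨x, hx⟩ := (ne_univ_iff_exists_notMem B).1 hne
  -- translates
  have htr : ∀ g : ℝ, Tendsto (fun t => t + g) (residual ℝ) (residual ℝ) := fun g =>
    tendsto_residual_of_isOpenMap (by fun_prop) (Homeomorph.addRight g).isOpenMap
  have hinv' : ∀ g ∈ H, ∀ y, y + g ∈ B ↔ y ∈ B := by
    intro g hg y
    constructor
    · intro h
      have := hinv (-g) (H.neg_mem hg) _ h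
      simpa using this
    · exact hinv g hg y
  -- `B` is comeager in an open set
  obtain ⟨U, hUo, hU⟩ := hB.residualEq_isOpen
  have hUne : U.Nonempty := by
    by_contra h
    rw [not_nonempty_iff_eq_empty] at h
    subst h
    apply not_isMeagre_H
    have : B ⊆ (∅ : Set ℝ) ∪ B := subset_union_right
    have hBm : IsMeagre B := by
      filter_upwards [hU] with y hy hyB
      exact (hy.mp hyB)
    exact hBm.mono hsub
  -- so is its complement
  obtain ⟨U', hUo', hU'⟩ := hB.compl.residualEq_isOpen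
  have hUne' : U'.Nonempty := by
    by_contra h
    rw [not_nonempty_iff_eq_empty] at h
    subst h
    apply not_isMeagre_H
    have hBm : IsMeagre Bᶜ := by
      filter_upwards [hU'] with y hy hyB
      exact (hy.mp hyB)
    have h2 : IsMeagre ((fun t => t + x) ⁻¹' Bᶜ) := htr x hBm
    refine h2.mono ?_
    intro g hg
    show g + x ∉ B
    rw [add_comm, hinv' g hg]
    exact hx
  -- move one to the other
  obtain ⟨y, hy⟩ := hUne
  obtain ⟨y', hy'⟩ := hUne'
  have hopen : IsOpen ((fun g => y + g) ⁻¹' U') := hUo'.preimage (by fun_prop)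
  obtain ⟨g, hg1, hg2⟩ := dense_H.inter_open_nonempty _ hopen ⟨y' - y, by
    show y + (y' - y) ∈ U'
    simpa using hy'⟩
  have hW : IsOpen (U ∩ (fun t => t + g) ⁻¹' U') := hUo.inter (hUo'.preimage (by fun_prop))
  apply not_isMeagre_of_isOpen hW ⟨y, hy, hg1⟩
  have h3 : ∀ᶠ t in residual ℝ, (t + g ∈ Bᶜ ↔ t + g ∈ U') := by
    have := (htr g).eventually hU'
    filter_upwards [this] with t ht
    exact iff_of_eq ht
  filter_upwards [hU, h3] with t ht1 ht2 ht3
  have h4 : t ∈ B := ht1.mpr ht3.1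
  have h5 : t + g ∈ Bᶜ := ht2.2 ht3.2
  exact h5 ((hinv' g hg2 t).2 h4)

end Pool.Agent.Lib.MP_00b317_lc.Null
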