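import Mathlib

/-!
Scales, nodes and branches used for the construction of a sigma-compact meager subgroup of the
reals and an invariant meager set without invariant analytic meager superset.
-/

namespace Pool.Agent.Lib.MP_00b317_lc

open Finset

/-- A rapidly decreasing sequence of positive reals, each dividing the previous ones. -/
noncomputable def u : ℕ → ℝ
  | 0 => 1
  | (j + 1) => u j / 2 ^ (j + 6)

theorem u_succ (j : ℕ) : u j = 2 ^ (j + 6) * u (j + 1) := by
  have : (2 : ℝ) ^ (j + 6) ≠ 0 := by positivity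
  simp only [u]
  field_simp

theorem u_pos (j : ℕ) : 0 < u j := by
  induction j with
  | zero => simp [u]
  | succ j ih =>
    simp only [u]
    positivity

theorem u_succ_le (j : ℕ) : (64 * (j + 1) : ℝ) * u (j + 1) ≤ u j := by
  rw [u_succ j]
  apply mul_le_mul_of_nonneg_right _ (u_pos _).le
  have h : (j + 1 : ℝ) ≤ 2 ^ j := by
    have : j + 1 ≤ 2 ^ j := Nat.lt_two_pow_self
    exact_mod_cast this
  calc (64 * (j + 1) : ℝ) ≤ 64 * 2 ^ j := by linarith
    _ = 2 ^ (j + 6) := by ring

theorem u_succ_le_half (j : ℕ) : u (j + 1) ≤ u j * (1 / 2) := by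
  have h1 := u_succ_le j
  have h2 := u_pos (j + 1)
  have h3 : (64 : ℝ) ≤ 64 * (j + 1) := by
    have : (0 : ℝ) ≤ j := Nat.cast_nonneg j
    linarith
  nlinarith

theorem u_add_le (j i : ℕ) : u (j + i) ≤ u j * (1 / 2) ^ i := by
  induction i with
  | zero => simp
  | succ i ih =>
    have := u_succ_le_half (j + i)
    calc u (j + (i + 1)) = u (j + i + 1) := by ring_nf
      _ ≤ u (j + i) * (1 / 2) := this
      _ ≤ (u j * (1 / 2) ^ i) * (1 / 2) := by nlinarith
      _ = u j * (1 / 2) ^ (i + 1) := by ring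

theorem u_anti {i j : ℕ} (h : i ≤ j) : u j ≤ u i := by
  obtain ⟨k, rfl⟩ := Nat.exists_eq_add_of_le h
  calc u (i + k) ≤ u i * (1 / 2) ^ k := u_add_le i k
    _ ≤ u i * 1 := by
      apply mul_le_mul_of_nonneg_left _ (u_pos i).le
      exact pow_le_one₀ (by norm_num) (by norm_num)
    _ = u i := mul_one _

theorem u_dvd {i j : ℕ} (h : i ≤ j) : ∃ k : ℤ, u i = k * u j := by
  induction j, h using Nat.le_induction with
  | base => exact ⟨1, by simp⟩
  | succ j _ ih =>
    obtain ⟨k, hk⟩ := ih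
    refine ⟨k * 2 ^ (j + 6), ?_⟩
    rw [hk, u_succ j]
    push_cast
    ring

theorem u_le_pow (j : ℕ) : u j ≤ (1 / 2) ^ j := by
  have := u_add_le 0 j
  simpa [u] using this

theorem u_summable (j : ℕ) : Summable (fun i => u (j + i)) := by
  refine Summable.of_nonneg_of_le (fun i => (u_pos _).le) (fun i => u_add_le j i) ?_
  exact (summable_geometric_of_lt_one (by norm_num) (by norm_num)).mul_left _

theorem u_tsum_le (j : ℕ) : ∑' i, u (j + i) ≤ 2 * u j := by
  have h1 : ∑' i, u (j + i) ≤ ∑' i, u j * (1 / 2 : ℝ) ^ i :=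
    (u_summable j).tsum_le_tsum (fun i => u_add_le j i)
      ((summable_geometric_of_lt_one (by norm_num) (by norm_num)).mul_left _)
  rw [tsum_mul_left, tsum_geometric_two] at h1
  linarith

/-- Branches of the tree. -/
abbrev Y : Type := (i : ℕ) → Fin (i + 4)

/-- Nodes of level `m`. -/
abbrev X (m : ℕ) : Type := (i : Fin m) → Fin (i + 4)

/-- Restriction of a branch to level `m`. -/
def res (m : ℕ) (y : Y) : X m := fun i => y i

theorem res_eq_iff {m : ℕ} {y y' : Y} : res m y = res m y' ↔ ∀ i < m, y i = y' i := by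
  constructor
  · intro h i hi
    exact congrFun h ⟨i, hi⟩
  · intro h
    funext i
    exact h i i.2

theorem res_mono {m n : ℕ} (h : m ≤ n) {y y' : Y} (hy : res n y = res n y') :
    res m y = res m y' := by
  rw [res_eq_iff] at *
  intro i hi
  exact hy i (lt_of_lt_of_le hi h)

/-- Number of nodes of level `m`. -/
noncomputable def N (m : ℕ) : ℕ := Fintype.card (X m)

/-- Numbering of the nodes of level `m`. -/
noncomputable def e (m : ℕ) : X m ≃ Fin (N m) := Fintype.equivFin (X m)

/-- Start of the block of scales of level `m`. -/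
noncomputable def a : ℕ → ℕ
  | 0 => 0
  | (m + 1) => a m + N m + 2

theorem a_succ (m : ℕ) : a (m + 1) = a m + N m + 2 := rfl

theorem le_a (m : ℕ) : m ≤ a m := by
  induction m with
  | zero => simp
  | succ m ih => rw [a_succ]; omega

theorem a_add_le (m i : ℕ) : a m + i ≤ a (m + i) := by
  induction i with
  | zero => simp
  | succ i ih =>
    have : a (m + (i + 1)) = a (m + i) + N (m + i) + 2 := rfl
    omega

theorem a_mono {m n : ℕ} (h : m ≤ n) : a m ≤ a n := by
  obtain ⟨k, rfl⟩ := Nat.exists_eq_add_of_le h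
  have := a_add_le m k
  omega

/-- The contribution of the node `s` of level `m`. -/
noncomputable def c (m : ℕ) (s : X m) : ℝ := u (a m + 1 + e m s)

noncomputable def q (m : ℕ) : ℝ := u (a m)

noncomputable def r (m : ℕ) : ℝ := u (a m + N m + 1)

theorem q_pos (m : ℕ) : 0 < q m := u_pos _
theorem r_pos (m : ℕ) : 0 < r m := u_pos _
theorem c_pos (m : ℕ) (s : X m) : 0 < c m s := u_pos _

theorem c_le (m : ℕ) (s : X m) : c m s ≤ u (a m + 1) := u_anti (by omega)

theorem q_le_pow (m : ℕ) : q m ≤ (1 / 2) ^ m :=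
  (u_le_pow _).trans (pow_le_pow_of_le_one (by norm_num) (by norm_num) (le_a m))

theorem r_le_pow (m : ℕ) : r m ≤ (1 / 2) ^ m :=
  (u_anti (by omega)).trans (q_le_pow m)

theorem r_anti {m n : ℕ} (h : m ≤ n) : r n ≤ r m := by
  rcases h.eq_or_lt with rfl | h
  · exact le_rfl
  · apply u_anti
    have : a (m + 1) ≤ a n := a_mono h
    rw [a_succ] at this
    omega

theorem r_succ_le (m : ℕ) : 4 * r (m + 1) ≤ r m := by
  have h1 : u (a (m + 1) + N (m + 1) + 1) ≤ u (a m + N m + 1 + 1) := u_anti (by rw [a_succ]; omega)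
  have h2 := u_succ_le (a m + N m + 1)
  have h3 : (4 : ℝ) ≤ 64 * (((a m + N m + 1 : ℕ) : ℝ) + 1) := by
    have : (0 : ℝ) ≤ ((a m + N m + 1 : ℕ) : ℝ) := Nat.cast_nonneg _
    linarith
  have h4 := u_pos (a m + N m + 1 + 1)
  unfold r
  nlinarith

theorem r_lt_le {m n : ℕ} (h : m < n) : 4 * r n ≤ r m := by
  have h1 := r_succ_le m
  have h2 := r_anti (show m + 1 ≤ n from h)
  linarith

theorem c_summable (y : Y) : Summable (fun m => c m (res m y)) := by
  refine Summable.of_nonneg_of_le (fun i => (c_pos _ _).le) (fun i => ?_) (u_summable 1)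
  refine (c_le _ _).trans (u_anti ?_)
  have := le_a i
  omega

/-- The real number attached to a branch. -/
noncomputable def P (y : Y) : ℝ := ∑' m, c m (res m y)

/-- Lower part. -/
noncomputable def R (m : ℕ) (y : Y) : ℝ := ∑ i ∈ range m, c i (res i y)

/-- Upper part. -/
noncomputable def T (m : ℕ) (y : Y) : ℝ := ∑' i, c (i + (m + 1)) (res (i + (m + 1)) y)

theorem P_eq (m : ℕ) (y : Y) : P y = R m y + c m (res m y) + T m y := by
  have h := (c_summable y).sum_add_tsum_nat_add (m + 1)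
  rw [sum_range_succ] at h
  unfold P R T
  rw [← h]

theorem T_nonneg (m : ℕ) (y : Y) : 0 ≤ T m y := tsum_nonneg (fun _ => (c_pos _ _).le)

theorem T_le (m : ℕ) (y : Y) : T m y ≤ 2 * u (a m + N m + 3) := by
  have hs : Summable (fun i => c (i + (m + 1)) (res (i + (m + 1)) y)) :=
    (summable_nat_add_iff (f := fun i => c i (res i y)) (m + 1)).2 (c_summable y)
  refine le_trans ?_ (u_tsum_le _)
  unfold T
  refine Summable.tsum_le_tsum (fun i => ?_) hs (u_summable _)
  refine (c_le _ _).trans (u_anti ?_)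
  have h1 := a_add_le (m + 1) i
  rw [a_succ] at h1
  have h2 : a (i + (m + 1)) = a (m + 1 + i) := by rw [add_comm]
  omega

theorem T_small (m : ℕ) (y : Y) : (8 * (m + 1) : ℝ) * T m y ≤ r m := by
  have h1 := T_le m y
  have h2 := u_succ_le (a m + N m + 1)
  have h3 := u_succ_le (a m + N m + 2)
  have h4 := u_pos (a m + N m + 3)
  have h5 : (m : ℝ) ≤ a m := by exact_mod_cast le_a m
  have h6 : (0 : ℝ) ≤ N m := Nat.cast_nonneg _
  have h7 : (0 : ℝ) ≤ m := Nat.cast_nonneg _
  push_cast at h2 h3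
  have h8 : (m + 1 : ℝ) * u (a m + N m + 3) ≤ u (a m + N m + 2) := by
    have : (m + 1 : ℝ) * u (a m + N m + 3) ≤
        (64 * ((a m : ℝ) + N m + 2 + 1)) * u (a m + N m + 3) := by
      apply mul_le_mul_of_nonneg_right _ h4.le
      linarith
    exact this.trans h3
  have h9 : 64 * u (a m + N m + 2) ≤ u (a m + N m + 1) := by
    have h10 := u_pos (a m + N m + 2)
    have : 64 * u (a m + N m + 2) ≤ (64 * ((a m : ℝ) + N m + 1 + 1)) * u (a m + N m + 2) := by
      apply mul_le_mul_of_nonneg_right _ h10.le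
      linarith
    exact this.trans h2
  have h10 := T_nonneg m y
  unfold r
  have h11 : (8 * (m + 1) : ℝ) * T m y ≤ (8 * (m + 1) : ℝ) * (2 * u (a m + N m + 3)) :=
    mul_le_mul_of_nonneg_left h1 (by positivity)
  nlinarith

theorem T_small' (m : ℕ) (y : Y) : 8 * T m y ≤ r m := by
  have h := T_small m y
  have h1 := T_nonneg m y
  have h2 : (0 : ℝ) ≤ m := Nat.cast_nonneg m
  have : (8 : ℝ) * T m y ≤ (8 * (m + 1)) * T m y := by
    apply mul_le_mul_of_nonneg_right _ h1
    linarith
  linarith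

theorem R_eq_of_res {m : ℕ} {y y' : Y} (h : res m y = res m y') : R m y = R m y' := by
  unfold R
  apply sum_congr rfl
  intro i hi
  rw [res_mono (mem_range.1 hi).le h]

theorem P_close {l : ℕ} {y y' : Y} (h : res l y = res l y') : |P y - P y'| ≤ r l / 4 := by
  rw [P_eq l y, P_eq l y', R_eq_of_res h, h]
  have h1 := T_small' l y
  have h2 := T_small' l y'
  have h3 := T_nonneg l y
  have h4 := T_nonneg l y'
  have h5 := r_pos l
  rw [abs_le]
  constructor <;> linarith

theorem R_int (m : ℕ) (y : Y) : ∃ k : ℤ, R m y = k * q m := by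
  have h : ∀ i ∈ range m, ∃ k : ℤ, c i (res i y) = k * q m := by
    intro i hi
    have h1 : a (i + 1) ≤ a m := a_mono (mem_range.1 hi)
    have h2 := (e i (res i y)).2
    rw [a_succ] at h1
    have h3 : a i + 1 + (e i (res i y) : ℕ) ≤ a m := by omega
    exact u_dvd h3
  choose! k hk using h
  refine ⟨∑ i ∈ range m, k i, ?_⟩
  unfold R
  rw [sum_congr rfl hk]
  push_cast
  rw [sum_mul]

/-- Uniqueness of bounded integer combinations at level `m`. -/
theorem key (m : ℕ) (v : X m → ℤ) (hv : ∑ s, |v s| ≤ 2 * m + 2) (k : ℤ)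
    (h : |∑ s, (v s : ℝ) * c m s - k * q m| < 6 * r m) : ∀ s, v s = 0 := by
  by_contra hne
  push Not at hne
  have hvR : ∑ s, |(v s : ℝ)| ≤ 2 * m + 2 := by
    have : ((∑ s, |v s| : ℤ) : ℝ) ≤ ((2 * m + 2 : ℤ) : ℝ) := by exact_mod_cast hv
    push_cast at this
    exact this
  have hmR : (0 : ℝ) ≤ m := Nat.cast_nonneg m
  -- minimal index
  obtain ⟨s0, hs0, hmin⟩ := Finset.exists_min_image (univ.filter (fun s => v s ≠ 0))
    (fun s => (e m s : ℕ)) (by
      obtain ⟨s, hs⟩ := hne
      exact ⟨s, by simp [hs]⟩)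
  simp only [mem_filter, mem_univ, true_and] at hs0 hmin
  set J : ℕ := a m + 1 + e m s0 with hJ
  have hJm : m + 1 ≤ J := by have := le_a m; omega
  -- the remaining terms
  have hrest : |∑ s ∈ univ.erase s0, (v s : ℝ) * c m s| ≤ (2 * m + 2) * u (J + 1) := by
    calc |∑ s ∈ univ.erase s0, (v s : ℝ) * c m s|
        ≤ ∑ s ∈ univ.erase s0, |(v s : ℝ) * c m s| := abs_sum_le_sum_abs _ _
      _ ≤ ∑ s ∈ univ.erase s0, |(v s : ℝ)| * u (J + 1) := by
          apply sum_le_sum
          intro s hs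
          rw [abs_mul, abs_of_pos (c_pos m s)]
          by_cases hvs : v s = 0
          · simp [hvs]
          · apply mul_le_mul_of_nonneg_left _ (abs_nonneg _)
            apply u_anti
            have h1 := hmin s hvs
            have h2 : e m s ≠ e m s0 := fun h => (mem_erase.1 hs).1 ((e m).injective h)
            have h3 : (e m s : ℕ) ≠ (e m s0 : ℕ) := fun h => h2 (Fin.ext h)
            omega
      _ = (∑ s ∈ univ.erase s0, |(v s : ℝ)|) * u (J + 1) := by rw [sum_mul]
      _ ≤ (∑ s, |(v s : ℝ)|) * u (J + 1) := by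
          apply mul_le_mul_of_nonneg_right _ (u_pos _).le
          exact sum_le_sum_of_subset_of_nonneg (erase_subset _ _) (fun _ _ _ => abs_nonneg _)
      _ ≤ (2 * m + 2) * u (J + 1) := mul_le_mul_of_nonneg_right hvR (u_pos _).le
  have hall : |∑ s, (v s : ℝ) * c m s| ≤ (2 * m + 2) * u (a m + 1) := by
    calc |∑ s, (v s : ℝ) * c m s|
        ≤ ∑ s, |(v s : ℝ) * c m s| := abs_sum_le_sum_abs _ _
      _ ≤ ∑ s, |(v s : ℝ)| * u (a m + 1) := by
          apply sum_le_sum
          intro s hs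
          rw [abs_mul, abs_of_pos (c_pos m s)]
          exact mul_le_mul_of_nonneg_left (c_le m s) (abs_nonneg _)
      _ = (∑ s, |(v s : ℝ)|) * u (a m + 1) := by rw [sum_mul]
      _ ≤ (2 * m + 2) * u (a m + 1) := mul_le_mul_of_nonneg_right hvR (u_pos _).le
  have hr1 : r m ≤ u (a m + 1) := u_anti (by omega)
  have hr2 : r m ≤ u (J + 1) := by
    apply u_anti
    have := (e m s0).2
    omega
  -- `k = 0`
  have hk0 : k = 0 := by
    by_contra hk
    have h1 : (1 : ℝ) ≤ |(k : ℝ)| := by
      have : (1 : ℤ) ≤ |k| := Int.one_le_abs hk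
      exact_mod_cast this
    have h2 : q m ≤ |(k : ℝ) * q m| := by
      rw [abs_mul, abs_of_pos (q_pos m)]
      have := q_pos m
      nlinarith
    have h3 : |(k : ℝ) * q m| < (2 * m + 2) * u (a m + 1) + 6 * r m := by
      have h4 : |(k : ℝ) * q m| ≤ |∑ s, (v s : ℝ) * c m s| +
          |∑ s, (v s : ℝ) * c m s - k * q m| := by
        have := abs_sub_abs_le_abs_sub ((k : ℝ) * q m) (∑ s, (v s : ℝ) * c m s)
        rw [abs_sub_comm ((k : ℝ) * q m)] at this
        linarith
      linarith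
    have h4 := u_succ_le (a m)
    have h5 : (m : ℝ) ≤ a m := by exact_mod_cast le_a m
    have h6 := u_pos (a m + 1)
    have h7 : q m = u (a m) := rfl
    nlinarith
  subst hk0
  have h1 : u J ≤ |(v s0 : ℝ) * c m s0| := by
    rw [abs_mul, abs_of_pos (c_pos m s0)]
    have h2 : (1 : ℝ) ≤ |(v s0 : ℝ)| := by
      have : (1 : ℤ) ≤ |v s0| := Int.one_le_abs hs0
      exact_mod_cast this
    have h3 : c m s0 = u J := rfl
    rw [h3]
    have := u_pos J
    nlinarith
  have h2 : (v s0 : ℝ) * c m s0 + ∑ s ∈ univ.erase s0, (v s : ℝ) * c m s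
      = ∑ s, (v s : ℝ) * c m s := by
    rw [← sum_erase_add _ _ (mem_univ s0)]
    ring
  have h3 : |(v s0 : ℝ) * c m s0| ≤ |∑ s, (v s : ℝ) * c m s| +
      |∑ s ∈ univ.erase s0, (v s : ℝ) * c m s| := by
    have h4 : (v s0 : ℝ) * c m s0 = ∑ s, (v s : ℝ) * c m s -
        ∑ s ∈ univ.erase s0, (v s : ℝ) * c m s := by rw [← h2]; ring
    rw [h4]
    exact abs_sub _ _
  simp only [Int.cast_zero, zero_mul, sub_zero] at h
  have h4 := u_succ_le J
  have h5 : (m + 1 : ℝ) ≤ J := by exact_mod_cast hJm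
  have h6 := u_pos (J + 1)
  nlinarith

end Pool.Agent.Lib.MP_00b317_lc
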