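import Pool.Agent.Lib.MP_00b317_lc.Scale

/-!
The one-step lemma of the construction.
-/

namespace Pool.Agent.Lib.MP_00b317_lc

open Finset

/-- Reals that are extremely close to the lattice `q m * ℤ`. -/
def V (m : ℕ) : Set ℝ := {x | ∃ k : ℤ, |x - k * q m| < r m}

/-- Linear functional on integer combinations of branches. -/
noncomputable def lin (g : Y → ℝ) (w : Y →₀ ℤ) : ℝ := w.sum (fun y n => (n : ℝ) * g y)

/-- The sum of the coefficients of the branches through the node `s`. -/
noncomputable def cnt (m : ℕ) (s : X m) (w : Y →₀ ℤ) : ℤ :=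
  w.sum (fun y n => if res m y = s then n else 0)

/-- The `ℓ¹` norm. -/
noncomputable def nrm (w : Y →₀ ℤ) : ℤ := w.sum (fun _ n => |n|)

theorem lin_sub (g : Y → ℝ) (w w' : Y →₀ ℤ) : lin g (w - w') = lin g w - lin g w' := by
  unfold lin
  apply Finsupp.sum_sub_index
  intro y b₁ b₂
  push_cast
  ring

theorem lin_add (g : Y → ℝ) (w w' : Y →₀ ℤ) : lin g (w + w') = lin g w + lin g w' := by
  unfold lin
  apply Finsupp.sum_add_index'
  · intro y; simp
  · intro y b₁ b₂
    push_cast
    ring

theorem lin_neg (g : Y → ℝ) (w : Y →₀ ℤ) : lin g (-w) = - lin g w := by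
  have h := lin_sub g 0 w
  simp only [zero_sub] at h
  rw [h]
  simp [lin]

theorem lin_single (g : Y → ℝ) (y : Y) (n : ℤ) : lin g (Finsupp.single y n) = n * g y := by
  unfold lin
  rw [Finsupp.sum_single_index]
  simp

theorem cnt_sub (m : ℕ) (s : X m) (w w' : Y →₀ ℤ) : cnt m s (w - w') = cnt m s w - cnt m s w' := by
  unfold cnt
  apply Finsupp.sum_sub_index
  intro y b₁ b₂
  split_ifs <;> simp

theorem cnt_single (m : ℕ) (y : Y) (n : ℤ) : cnt m (res m y) (Finsupp.single y n) = n := by
  unfold cnt
  rw [Finsupp.sum_single_index] <;> simp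

theorem nrm_single (y : Y) (n : ℤ) : nrm (Finsupp.single y n) = |n| := by
  unfold nrm
  rw [Finsupp.sum_single_index]; simp

theorem nrm_eq (w : Y →₀ ℤ) {S : Finset Y} (h : w.support ⊆ S) : nrm w = ∑ y ∈ S, |w y| := by
  unfold nrm
  exact Finsupp.sum_of_support_subset w h _ (by simp)

theorem nrm_sub_le (w w' : Y →₀ ℤ) : nrm (w - w') ≤ nrm w + nrm w' := by
  classical
  rw [nrm_eq w (S := w.support ∪ w'.support) subset_union_left,
    nrm_eq w' (S := w.support ∪ w'.support) subset_union_right,
    nrm_eq (w - w') (S := w.support ∪ w'.support) Finsupp.support_sub, ← sum_add_distrib]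
  apply sum_le_sum
  intro y _
  rw [Finsupp.sub_apply]
  exact abs_sub _ _

theorem nrm_nonneg (w : Y →₀ ℤ) : 0 ≤ nrm w := sum_nonneg (fun _ _ => abs_nonneg _)

theorem lin_abs_le {g : Y → ℝ} {B : ℝ} (hB : ∀ y, |g y| ≤ B) (w : Y →₀ ℤ) :
    |lin g w| ≤ nrm w * B := by
  unfold lin nrm Finsupp.sum
  push_cast
  rw [sum_mul]
  refine (abs_sum_le_sum_abs _ _).trans (sum_le_sum ?_)
  intro y _
  rw [abs_mul]
  exact mul_le_mul_of_nonneg_left (hB y) (abs_nonneg _)

theorem sum_cnt (m : ℕ) (g : X m → ℝ) (w : Y →₀ ℤ) :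
    ∑ s, (cnt m s w : ℝ) * g s = lin (fun y => g (res m y)) w := by
  unfold cnt lin Finsupp.sum
  push_cast
  simp_rw [sum_mul]
  rw [sum_comm]
  apply sum_congr rfl
  intro y _
  simp [ite_mul]

theorem sum_abs_cnt (m : ℕ) (w : Y →₀ ℤ) : ∑ s, |cnt m s w| ≤ nrm w := by
  unfold cnt nrm Finsupp.sum
  calc ∑ s, |∑ y ∈ w.support, if res m y = s then w y else 0|
      ≤ ∑ s, ∑ y ∈ w.support, |if res m y = s then w y else 0| :=
        sum_le_sum (fun s _ => abs_sum_le_sum_abs _ _)
    _ = ∑ y ∈ w.support, ∑ s, |if res m y = s then w y else 0| := sum_comm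
    _ = ∑ y ∈ w.support, |w y| := by
        apply sum_congr rfl
        intro y _
        rw [sum_eq_single (res m y)]
        · simp
        · intro s _ hs
          rw [if_neg (Ne.symm hs)]
          simp
        · simp

theorem exists_avoid (m : ℕ) (x : ℝ) : ∃ S : Finset (X m), S.card ≤ m + 1 ∧
    ∀ w : Y →₀ ℤ, nrm w ≤ m + 1 → ∀ k : ℤ,
      |x - lin (fun y => c m (res m y)) w - k * q m| < 3 * r m →
      ∀ s, cnt m s w ≠ 0 → s ∈ S := by
  classical
  by_cases hex : ∃ w : Y →₀ ℤ, nrm w ≤ m + 1 ∧ ∃ k : ℤ,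
      |x - lin (fun y => c m (res m y)) w - k * q m| < 3 * r m
  · obtain ⟨w0, hw0, k0, hk0⟩ := hex
    refine ⟨univ.filter (fun s => cnt m s w0 ≠ 0), ?_, ?_⟩
    · have h1 : ((univ.filter (fun s => cnt m s w0 ≠ 0)).card : ℤ) ≤ ∑ s, |cnt m s w0| := by
        rw [card_eq_sum_ones]
        push_cast
        rw [sum_filter]
        apply sum_le_sum
        intro s _
        split_ifs with h
        · exact Int.one_le_abs h
        · exact abs_nonneg _
      have h2 := sum_abs_cnt m w0
      omega
    · intro w hw k hk s hs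
      have h1 := key m (fun s => cnt m s w - cnt m s w0) (by
        calc ∑ s, |cnt m s w - cnt m s w0| ≤ ∑ s, (|cnt m s w| + |cnt m s w0|) :=
              sum_le_sum (fun s _ => abs_sub _ _)
          _ = ∑ s, |cnt m s w| + ∑ s, |cnt m s w0| := sum_add_distrib
          _ ≤ nrm w + nrm w0 := add_le_add (sum_abs_cnt m w) (sum_abs_cnt m w0)
          _ ≤ 2 * m + 2 := by linarith) (k0 - k) (by
        have h2 : ∑ s, ((cnt m s w - cnt m s w0 : ℤ) : ℝ) * c m s =
            lin (fun y => c m (res m y)) w - lin (fun y => c m (res m y)) w0 := by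
          rw [← sum_cnt m (c m) w, ← sum_cnt m (c m) w0, ← sum_sub_distrib]
          apply sum_congr rfl
          intro s _
          push_cast
          ring
        rw [h2]
        push_cast
        rw [abs_lt] at *
        constructor <;> linarith [hk.1, hk.2, hk0.1, hk0.2])
      have h3 := h1 s
      simp only [mem_filter, mem_univ, true_and]
      intro h4
      apply hs
      omega
  · push Not at hex
    refine ⟨∅, by simp, ?_⟩
    intro w hw k hk
    exact absurd hk (not_lt.2 (hex w hw k))

theorem exists_digits (l : ℕ) (s : Y) (S : ∀ m, Finset (X m)) (hS : ∀ m, (S m).card ≤ m + 1)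
    (l' : ℕ) (hl : l ≤ l') : ∃ p : Y, (∀ i < l, p i = s i) ∧ (∀ i, l ≤ i → i < l' → p i ≠ 0) ∧
      (∀ i ≥ l', p i = 0) ∧ ∀ m, l < m → m ≤ l' → res m p ∉ S m := by
  classical
  induction l', hl using Nat.le_induction with
  | base =>
    refine ⟨fun i => if i < l then s i else 0, ?_, ?_, ?_, ?_⟩
    · intro i hi; simp [hi]
    · intro i h1 h2; omega
    · intro i hi; simp [not_lt.2 hi]
    · intro m h1 h2; omega
  | succ l' hl ih =>
    obtain ⟨p, h1, h2, h3, h4⟩ := ih
    -- choose the digit
    have hinj : Function.Injective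
        (fun d : Fin (l' + 4) => res (l' + 1) (Function.update p l' d)) := by
      intro d d' h
      rw [res_eq_iff] at h
      have := h l' (Nat.lt_succ_self _)
      simpa using this
    have hcard : (S (l' + 1)).card < ((univ.filter (fun d : Fin (l' + 4) => d ≠ 0)).image
        (fun d : Fin (l' + 4) => res (l' + 1) (Function.update p l' d))).card := by
      rw [card_image_of_injective _ hinj]
      have h5 : (univ.filter (fun d : Fin (l' + 4) => d ≠ 0)).card = l' + 3 := by
        rw [filter_ne' univ (0 : Fin (l' + 4)), card_erase_of_mem (mem_univ _)]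
        simp
      rw [h5]
      have := hS (l' + 1)
      omega
    obtain ⟨x, hx1, hx2⟩ := exists_mem_notMem_of_card_lt_card hcard
    rw [mem_image] at hx1
    obtain ⟨d, hd, rfl⟩ := hx1
    simp only [mem_filter, mem_univ, true_and] at hd
    refine ⟨Function.update p l' d, ?_, ?_, ?_, ?_⟩
    · intro i hi
      rw [Function.update_of_ne (by omega)]
      exact h1 i hi
    · intro i hi hi'
      by_cases h : i = l'
      · subst h
        simpa using hd
      · rw [Function.update_of_ne h]
        exact h2 i hi (by omega)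
    · intro i hi
      rw [Function.update_of_ne (by omega)]
      exact h3 i (by omega)
    · intro m hm hm'
      by_cases h : m = l' + 1
      · subst h
        exact hx2
      · have h5 : res m (Function.update p l' d) = res m p := by
          rw [res_eq_iff]
          intro i hi
          rw [Function.update_of_ne (by omega)]
        rw [h5]
        exact h4 m hm (by omega)

theorem step (O : Set ℝ) (hO : IsOpen O) (hd : Dense O) (z : ℝ) (l : ℕ) (s : Y) :
    ∃ (z' : ℝ) (l' : ℕ) (p : Y), l < l' ∧ (∀ i < l, p i = s i) ∧ p l ≠ 0 ∧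
      (∀ i ≥ l', p i = 0) ∧ |z' - z| ≤ r l / 2 ∧
      (∀ z'', |z'' - z'| ≤ r l' → ∀ y, res l' y = res l' p → z'' - P y ∈ O) ∧
      (∀ m, l < m → m ≤ l' → ∀ z'', |z'' - z'| ≤ r l' → ∀ w : Y →₀ ℤ, nrm w ≤ m →
        z'' - lin P w ∈ V m → ∃ y ∈ w.support, res m y = res m p) := by
  classical
  -- the point of `O`
  obtain ⟨x, hxO, hx⟩ : ∃ x ∈ O, |x - (z - P (fun i => if i < l then s i else 0))| < r l / 4 := by
    have h1 : (Metric.ball (z - P (fun i => if i < l then s i else 0)) (r l / 4)).Nonempty :=
      Metric.nonempty_ball.2 (by have := r_pos l; linarith)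
    obtain ⟨x, hx1, hx2⟩ := hd.inter_open_nonempty _ Metric.isOpen_ball h1
    refine ⟨x, hx2, ?_⟩
    rw [Metric.mem_ball, Real.dist_eq] at hx1
    exact hx1
  obtain ⟨δ, hδ, hball⟩ := Metric.isOpen_iff.1 hO x hxO
  obtain ⟨n, hn⟩ := exists_pow_lt_of_lt_one (show 0 < δ / 4 by linarith)
    (show (1 / 2 : ℝ) < 1 by norm_num)
  set l' := max n (l + 1) with hl'
  have hll' : l < l' := by omega
  have hrl' : 4 * r l' < δ := by
    have h1 := r_le_pow l'
    have h2 : (1 / 2 : ℝ) ^ l' ≤ (1 / 2) ^ n :=
      pow_le_pow_of_le_one (by norm_num) (by norm_num) (le_max_left _ _)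
    linarith
  choose S hS1 hS2 using fun m => exists_avoid m x
  obtain ⟨p, hp1, hp2, hp3, hp4⟩ := exists_digits l s S hS1 l' hll'.le
  refine ⟨x + P p, l', p, hll', hp1, hp2 l le_rfl hll', hp3, ?_, ?_, ?_⟩
  · have h1 : |P p - P (fun i => if i < l then s i else 0)| ≤ r l / 4 := by
      apply P_close
      rw [res_eq_iff]
      intro i hi
      rw [hp1 i hi]
      simp [hi]
    rw [abs_lt] at hx
    rw [abs_le] at *
    constructor <;> linarith [hx.1, hx.2, h1.1, h1.2]
  · intro z'' hz'' y hy
    apply hball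
    rw [Metric.mem_ball, Real.dist_eq]
    have h1 := P_close hy
    have h2 := r_pos l'
    rw [abs_le] at *
    rw [abs_lt]
    constructor <;> linarith [hz''.1, hz''.2, h1.1, h1.2]
  · intro m hm hm' z'' hz'' w hw hV
    obtain ⟨k, hk⟩ := hV
    set w' : Y →₀ ℤ := w - Finsupp.single p 1 with hw'
    have hn' : nrm w' ≤ m + 1 := by
      have h1 := nrm_sub_le w (Finsupp.single p 1)
      rw [nrm_single] at h1
      rw [abs_one] at h1
      linarith
    -- lower parts
    obtain ⟨k1, hk1⟩ : ∃ k1 : ℤ, lin (R m) w' = k1 * q m := by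
      choose kk hkk using fun y => R_int m y
      refine ⟨w'.sum (fun y n => n * kk y), ?_⟩
      unfold lin Finsupp.sum
      push_cast
      rw [sum_mul]
      apply sum_congr rfl
      intro y _
      rw [hkk y]
      ring
    have hT : |lin (T m) w'| ≤ r m / 8 := by
      have h1 : |lin (T m) w'| ≤ nrm w' * (r m / (8 * (m + 1))) := by
        apply lin_abs_le
        intro y
        rw [abs_of_nonneg (T_nonneg m y), le_div_iff₀ (by positivity)]
        have := T_small m y
        linarith
      have h2 : (nrm w' : ℝ) ≤ m + 1 := by exact_mod_cast hn'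
      have h3 : 0 < r m / (8 * (m + 1)) := by
        have := r_pos m
        positivity
      calc |lin (T m) w'| ≤ nrm w' * (r m / (8 * (m + 1))) := h1
        _ ≤ (m + 1) * (r m / (8 * (m + 1))) := mul_le_mul_of_nonneg_right h2 h3.le
        _ = r m / 8 := by
          have : (m + 1 : ℝ) ≠ 0 := by positivity
          field_simp
    have hdec : lin P w' = lin (R m) w' + lin (fun y => c m (res m y)) w' + lin (T m) w' := by
      unfold lin Finsupp.sum
      rw [← sum_add_distrib, ← sum_add_distrib]
      apply sum_congr rfl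
      intro y _
      beta_reduce
      rw [P_eq m y]
      ring
    have hPw : lin P w' = lin P w - P p := by
      rw [hw', lin_sub, lin_single]
      simp
    have hcnt := hS2 m w' hn' (k + k1) (by
      have h1 := r_anti hm'
      have h2 := r_pos m
      push_cast
      rw [abs_lt] at *
      rw [abs_le] at hz'' hT
      constructor <;> nlinarith [hk.1, hk.2, hz''.1, hz''.2, hT.1, hT.2]) (res m p)
    by_contra hno
    push Not at hno
    apply hp4 m hm hm'
    apply hcnt
    rw [hw', cnt_sub, cnt_single]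
    have h0 : cnt m (res m p) w = 0 := by
      unfold cnt Finsupp.sum
      apply sum_eq_zero
      intro y hy
      beta_reduce
      rw [if_neg (hno y hy)]
    rw [h0]
    norm_num

end Pool.Agent.Lib.MP_00b317_lc
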